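import Pool.Agent.helper7.SC.Defs

set_option autoImplicit false

/-!
# MP_21ad85_ag, module TAU: power series expansion of a domain at a regular point
-/

namespace Pool.Agent.helper26.SC

open MvPolynomial

section QR

variable {R : Type} [CommRing R]

/-- elements of `J * (h, v)^d` are forms of degree `d` in `v, h` with coefficients in `J` -/
lemma mem_mul_pow (h v : R) (J : Ideal R) (d : ℕ) : ∀ z ∈ J * Ideal.span {h, v} ^ d,
    ∃ g : ℕ → R, (∀ i, g i ∈ J) ∧ z = ∑ i ∈ Finset.range (d + 1), g i * (v ^ i * h ^ (d - i)) := by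
  induction d with
  | zero =>
    intro z hz
    rw [pow_zero, mul_one] at hz
    exact ⟨fun _ => z, fun _ => hz, by simp⟩
  | succ d ih =>
    intro z hz
    have hI : J * Ideal.span {h, v} ^ (d + 1) =
        J * Ideal.span {h, v} ^ d * Ideal.span {h} ⊔ J * Ideal.span {h, v} ^ d * Ideal.span {v} := by
      rw [pow_succ, ← mul_assoc, ← Ideal.mul_sup]
      congr 1
      rw [Ideal.span_insert]
    rw [hI] at hz
    obtain ⟨z1, hz1, z2, hz2, rfl⟩ := Submodule.mem_sup.1 hz
    obtain ⟨y1, hy1, rfl⟩ := Ideal.mem_mul_span_singleton.1 hz1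
    obtain ⟨y2, hy2, rfl⟩ := Ideal.mem_mul_span_singleton.1 hz2
    obtain ⟨g1, hg1, rfl⟩ := ih y1 hy1
    obtain ⟨g2, hg2, rfl⟩ := ih y2 hy2
    refine ⟨fun i => (if i ≤ d then g1 i else 0) + (if i = 0 then 0 else g2 (i - 1)), ?_, ?_⟩
    · intro i
      refine J.add_mem ?_ ?_
      · split_ifs
        exacts [hg1 i, J.zero_mem]
      · split_ifs
        exacts [J.zero_mem, hg2 _]
    · simp only [add_mul]
      rw [Finset.sum_add_distrib]
      congr 1
      · rw [Finset.sum_range_succ _ (d + 1), if_neg (by omega), zero_mul, add_zero,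
          Finset.sum_mul]
        refine Finset.sum_congr rfl fun i hi => ?_
        have hi' : i ≤ d := by
          have := Finset.mem_range.1 hi; omega
        rw [if_pos hi', show d + 1 - i = (d - i) + 1 by omega]
        ring
      · rw [Finset.sum_range_succ' _ (d + 1), if_pos rfl, zero_mul, add_zero, Finset.sum_mul]
        refine Finset.sum_congr rfl fun i _ => ?_
        rw [if_neg (by omega), show i + 1 - 1 = i by omega,
          show d + 1 - (i + 1) = d - i by omega]
        ring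

/-- `h, v` is quasi-regular -/
lemma quasi_regular [IsDomain R] (h v : R) (hprime : (Ideal.span {h}).IsPrime) (hh0 : h ≠ 0)
    (hvh : v ∉ Ideal.span {h}) (d : ℕ) : ∀ a : ℕ → R,
    ∑ i ∈ Finset.range (d + 1), a i * (v ^ i * h ^ (d - i)) = 0 →
    ∀ i ≤ d, a i ∈ Ideal.span {h, v} := by
  have hhI : h ∈ Ideal.span {h, v} := Ideal.subset_span (by simp)
  have hvI : v ∈ Ideal.span {h, v} := Ideal.subset_span (by simp)
  induction d with
  | zero =>
    intro a ha i hi
    have : i = 0 := by omega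
    subst this
    simp only [zero_add, Finset.range_one, Finset.sum_singleton, pow_zero, Nat.sub_zero, mul_one]
      at ha
    rw [ha]
    exact Ideal.zero_mem _
  | succ d ih =>
    intro a ha
    rw [Finset.sum_range_succ] at ha
    have h1 : ∑ i ∈ Finset.range (d + 1), a i * (v ^ i * h ^ (d + 1 - i)) =
        h * ∑ i ∈ Finset.range (d + 1), a i * (v ^ i * h ^ (d - i)) := by
      rw [Finset.mul_sum]
      refine Finset.sum_congr rfl fun i hi => ?_
      have hi' : i ≤ d := by
        have := Finset.mem_range.1 hi; omega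
      rw [show d + 1 - i = (d - i) + 1 by omega]
      ring
    rw [h1, Nat.sub_self, pow_zero, mul_one] at ha
    have h2 : a (d + 1) * v ^ (d + 1) ∈ Ideal.span {h} := by
      rw [Ideal.mem_span_singleton]
      exact ⟨-∑ i ∈ Finset.range (d + 1), a i * (v ^ i * h ^ (d - i)), by linear_combination ha⟩
    have h3 : a (d + 1) ∈ Ideal.span {h} := by
      rcases hprime.mem_or_mem h2 with h | h
      · exact h
      · exact absurd (hprime.mem_of_pow_mem _ h) hvh
    obtain ⟨b, hb⟩ := Ideal.mem_span_singleton.1 h3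
    have h4 : ∑ i ∈ Finset.range (d + 1), a i * (v ^ i * h ^ (d - i)) + b * v ^ (d + 1) = 0 := by
      have : h * (∑ i ∈ Finset.range (d + 1), a i * (v ^ i * h ^ (d - i)) + b * v ^ (d + 1)) = 0 := by
        rw [hb] at ha
        linear_combination ha
      exact (mul_eq_zero.1 this).resolve_left hh0
    have h5 := ih (fun i => a i + if i = d then b * v else 0) (by
      simp only [add_mul]
      rw [Finset.sum_add_distrib]
      refine Eq.trans ?_ h4
      congr 1
      rw [Finset.sum_eq_single d]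
      · rw [if_pos rfl, Nat.sub_self]
        ring
      · intro i _ hi
        rw [if_neg hi, zero_mul]
      · intro hd
        exact absurd (Finset.mem_range.2 (Nat.lt_succ_self d)) hd)
    intro i hi
    rcases Nat.lt_or_ge i (d + 1) with hi' | hi'
    · have h6 := h5 i (by omega)
      have h7 : (if i = d then b * v else 0) ∈ Ideal.span {h, v} := by
        split_ifs
        · exact Ideal.mul_mem_left _ _ hvI
        · exact Ideal.zero_mem _
      have h8 := Ideal.sub_mem _ h6 h7
      simpa using h8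
    · have : i = d + 1 := by omega
      rw [this, hb, mul_comm]
      exact Ideal.mul_mem_left _ _ hhI

/-- Nakayama: `s m ≤ (h, v)` with `s ∉ m` -/
lemma exists_s [IsNoetherianRing R] (m : Ideal R) (h v : R)
    (hm : m ≤ Ideal.span {h, v} ⊔ m ^ 2) : ∃ s : R, s - 1 ∈ m ∧ ∀ z ∈ m, s * z ∈ Ideal.span {h, v} := by
  have hfg : m.FG := IsNoetherian.noetherian m
  obtain ⟨r, hr, hr'⟩ := Submodule.exists_sub_one_mem_and_smul_le_of_fg_of_le_sup (I := m)
    (N := Ideal.span {h, v}) (N' := m) (P := m) hfg le_rfl (by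
      rw [smul_eq_mul, ← pow_two]
      exact hm)
  refine ⟨r, hr, fun z hz => ?_⟩
  exact hr' (Submodule.smul_mem_pointwise_smul _ _ _ hz)

/-- independence of the forms in `v, h` modulo powers of the maximal ideal -/
lemma forms_indep [IsDomain R] (m : Ideal R) (hmp : m.IsPrime) (h v : R) (hh : h ∈ m)
    (hv : v ∈ m) (s : R) (hs : s ∉ m) (hsm : ∀ z ∈ m, s * z ∈ Ideal.span {h, v})
    (hprime : (Ideal.span {h}).IsPrime) (hh0 : h ≠ 0) (hvh : v ∉ Ideal.span {h}) (d : ℕ)
    (c : ℕ → R) (hc : ∑ i ∈ Finset.range (d + 1), c i * (v ^ i * h ^ (d - i)) ∈ m ^ (d + 1)) :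
    ∀ i ≤ d, c i ∈ m := by
  have hI : Ideal.span {h, v} ≤ m := by
    rw [Ideal.span_le]
    rintro x (rfl | rfl)
    exacts [hh, hv]
  have h1 : ∀ k : ℕ, ∀ z ∈ m ^ k, s ^ k * z ∈ Ideal.span {h, v} ^ k := by
    intro k
    induction k with
    | zero => intro z _; simp
    | succ k ih =>
      intro z hz
      rw [pow_succ] at hz
      refine Submodule.mul_induction_on hz ?_ ?_
      · intro a ha b hb
        have h2 := Ideal.mul_mem_mul (ih a ha) (hsm b hb)
        rw [← pow_succ] at h2
        have h3 : s ^ (k + 1) * (a * b) = s ^ k * a * (s * b) := by ring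
        rw [h3]
        exact h2
      · intro a b ha hb
        rw [mul_add]
        exact Ideal.add_mem _ ha hb
  have h2 := h1 (d + 1) _ hc
  rw [pow_succ' (Ideal.span {h, v})] at h2
  obtain ⟨g, hg, hg'⟩ := mem_mul_pow h v (Ideal.span {h, v}) d _ h2
  have h3 := quasi_regular h v hprime hh0 hvh d (fun i => s ^ (d + 1) * c i - g i) (by
    simp only [sub_mul]
    rw [Finset.sum_sub_distrib, ← hg', sub_eq_zero, Finset.mul_sum]
    refine Finset.sum_congr rfl fun i _ => ?_
    ring)
  intro i hi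
  have h4 := hI (h3 i hi)
  have h5 : s ^ (d + 1) * c i ∈ m := by
    have := m.add_mem h4 (hI (hg i))
    simpa using this
  rcases hmp.mem_or_mem h5 with h6 | h6
  · exact absurd (hmp.mem_of_pow_mem _ h6) hs
  · exact h6

end QR

section Tau

variable {R : Type} [CommRing R] [Algebra ℂ R]

/-- substitution of `v, h` -/
noncomputable def phi (h v : R) : MvPolynomial (Fin 2) ℂ →ₐ[ℂ] R := aeval ![v, h]

lemma degree_two (n : Fin 2 →₀ ℕ) : n.degree = n 0 + n 1 := by
  rw [Finsupp.degree_eq_sum, Fin.sum_univ_two]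

lemma phi_monomial (h v : R) (n : Fin 2 →₀ ℕ) (c : ℂ) :
    phi h v (monomial n c) = algebraMap ℂ R c * (v ^ n 0 * h ^ n 1) := by
  unfold phi
  rw [aeval_monomial]
  congr 1
  rw [Finsupp.prod_fintype _ _ (by intro i; simp), Fin.prod_univ_two]
  simp

lemma phi_mem (m : Ideal R) (h v : R) (hh : h ∈ m) (hv : v ∈ m) (k : ℕ)
    (P : MvPolynomial (Fin 2) ℂ) (hP : ∀ n, n.degree < k → coeff n P = 0) :
    phi h v P ∈ m ^ k := by
  rw [← support_sum_monomial_coeff P, map_sum]
  refine Ideal.sum_mem _ fun n hn => ?_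
  rw [phi_monomial]
  refine Ideal.mul_mem_left _ _ ?_
  have h1 : k ≤ n.degree := by
    by_contra hcon
    push Not at hcon
    exact (mem_support_iff.1 hn) (hP n hcon)
  have h2 : v ^ n 0 * h ^ n 1 ∈ m ^ (n 0 + n 1) := by
    rw [pow_add]
    exact Ideal.mul_mem_mul (Ideal.pow_mem_pow hv _) (Ideal.pow_mem_pow hh _)
  rw [← degree_two] at h2
  exact Ideal.pow_le_pow_right h1 h2

/-- exponents -/
noncomputable def ex (i j : ℕ) : Fin 2 →₀ ℕ := Finsupp.single 0 i + Finsupp.single 1 j

@[simp] lemma ex0 (i j : ℕ) : ex i j 0 = i := by simp [ex]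

@[simp] lemma ex1 (i j : ℕ) : ex i j 1 = j := by simp [ex]

lemma ex_eq (n : Fin 2 →₀ ℕ) : ex (n 0) (n 1) = n := by
  ext i
  fin_cases i <;> simp

lemma ex_ext {i j : ℕ} {n : Fin 2 →₀ ℕ} : ex i j = n ↔ i = n 0 ∧ j = n 1 := by
  constructor
  · rintro rfl
    simp
  · rintro ⟨rfl, rfl⟩
    exact ex_eq n

lemma phi_coeff_step [IsDomain R] (ε : R →ₐ[ℂ] ℂ) (h v : R) (hh : ε h = 0) (hv : ε v = 0) (s : R)
    (hs : s ∉ RingHom.ker ε) (hsm : ∀ z ∈ RingHom.ker ε, s * z ∈ Ideal.span {h, v})
    (hprime : (Ideal.span {h}).IsPrime) (hh0 : h ≠ 0) (hvh : v ∉ Ideal.span {h}) (d : ℕ)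
    (P : MvPolynomial (Fin 2) ℂ) (hP : phi h v P ∈ RingHom.ker ε ^ (d + 1))
    (hlow : ∀ n, n.degree < d → coeff n P = 0) : ∀ n, n.degree = d → coeff n P = 0 := by
  classical
  have hhm : h ∈ RingHom.ker ε := hh
  have hvm : v ∈ RingHom.ker ε := hv
  set Pd : MvPolynomial (Fin 2) ℂ :=
    ∑ i ∈ Finset.range (d + 1), monomial (ex i (d - i)) (coeff (ex i (d - i)) P) with hPd
  have hcoeff : ∀ n, n.degree = d → coeff n Pd = coeff n P := by
    intro n hn
    rw [degree_two] at hn
    rw [hPd, coeff_sum, Finset.sum_eq_single (n 0)]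
    · rw [coeff_monomial, if_pos, show d - n 0 = n 1 by omega, ex_eq]
      rw [show d - n 0 = n 1 by omega, ex_eq]
    · intro i _ hi
      rw [coeff_monomial, if_neg]
      rw [ex_ext]
      exact fun h => hi h.1
    · intro hcon
      rw [Finset.mem_range] at hcon
      omega
  have hcoeff' : ∀ n, n.degree ≠ d → coeff n Pd = 0 := by
    intro n hn
    rw [degree_two] at hn
    rw [hPd, coeff_sum]
    refine Finset.sum_eq_zero fun i hi => ?_
    have := Finset.mem_range.1 hi
    rw [coeff_monomial, if_neg]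
    rw [ex_ext]
    omega
  have h1 : phi h v (P - Pd) ∈ RingHom.ker ε ^ (d + 1) := by
    refine phi_mem _ h v hhm hvm _ _ fun n hn => ?_
    rw [coeff_sub]
    by_cases hn' : n.degree = d
    · rw [hcoeff n hn', sub_self]
    · rw [hcoeff' n hn', hlow n (by omega), sub_zero]
  have h2 : phi h v Pd ∈ RingHom.ker ε ^ (d + 1) := by
    have := Ideal.sub_mem _ hP h1
    rw [map_sub] at this
    simpa using this
  have h3 : phi h v Pd = ∑ i ∈ Finset.range (d + 1),
      algebraMap ℂ R (coeff (ex i (d - i)) P) * (v ^ i * h ^ (d - i)) := by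
    rw [hPd, map_sum]
    refine Finset.sum_congr rfl fun i _ => ?_
    rw [phi_monomial, ex0, ex1]
  rw [h3] at h2
  have h4 := forms_indep (RingHom.ker ε) (RingHom.ker_isPrime ε.toRingHom) h v hhm hvm s hs hsm
    hprime hh0 hvh d _ h2
  intro n hn
  rw [degree_two] at hn
  have h5 := h4 (n 0) (by omega)
  rw [show d - n 0 = n 1 by omega, ex_eq] at h5
  have h6 : ε (algebraMap ℂ R (coeff n P)) = 0 := h5
  rw [AlgHom.commutes] at h6
  simpa using h6

lemma phi_coeff [IsDomain R] (ε : R →ₐ[ℂ] ℂ) (h v : R) (hh : ε h = 0) (hv : ε v = 0) (s : R)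
    (hs : s ∉ RingHom.ker ε) (hsm : ∀ z ∈ RingHom.ker ε, s * z ∈ Ideal.span {h, v})
    (hprime : (Ideal.span {h}).IsPrime) (hh0 : h ≠ 0) (hvh : v ∉ Ideal.span {h})
    (P : MvPolynomial (Fin 2) ℂ) (k : ℕ) (hP : phi h v P ∈ RingHom.ker ε ^ k) :
    ∀ n, n.degree < k → coeff n P = 0 := by
  induction k with
  | zero => intro n hn; omega
  | succ k ih =>
    have h1 := ih (Ideal.pow_le_pow_right (Nat.le_succ k) hP)
    intro n hn
    rcases Nat.lt_or_ge n.degree k with h2 | h2
    · exact h1 n h2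
    · exact phi_coeff_step ε h v hh hv s hs hsm hprime hh0 hvh k P hP h1 n (by omega)

lemma exists_phi_step (ε : R →ₐ[ℂ] ℂ) (h v : R) (hh : ε h = 0) (hv : ε v = 0)
    (hm : RingHom.ker ε ≤ Ideal.span {h, v} ⊔ RingHom.ker ε ^ 2) (k : ℕ) :
    ∀ z ∈ RingHom.ker ε ^ k, ∃ P, z - phi h v P ∈ RingHom.ker ε ^ (k + 1) := by
  have hhm : h ∈ RingHom.ker ε := hh
  have hvm : v ∈ RingHom.ker ε := hv
  have hε : ∀ z : R, z - algebraMap ℂ R (ε z) ∈ RingHom.ker ε := by
    intro z
    rw [RingHom.mem_ker, map_sub, AlgHom.commutes]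
    simp
  have h1 : ∀ b ∈ RingHom.ker ε, ∃ Q, b - phi h v Q ∈ RingHom.ker ε ^ 2 := by
    intro b hb
    obtain ⟨b1, hb1, b2, hb2, rfl⟩ := Submodule.mem_sup.1 (hm hb)
    obtain ⟨x, y, rfl⟩ := Ideal.mem_span_pair.1 hb1
    refine ⟨C (ε x) * X 1 + C (ε y) * X 0, ?_⟩
    have h2 : phi h v (C (ε x) * X 1 + C (ε y) * X 0) =
        algebraMap ℂ R (ε x) * h + algebraMap ℂ R (ε y) * v := by
      simp [phi]
    rw [h2]
    have h3 : x * h + y * v + b2 - (algebraMap ℂ R (ε x) * h + algebraMap ℂ R (ε y) * v) =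
        ((x - algebraMap ℂ R (ε x)) * h + (y - algebraMap ℂ R (ε y)) * v) + b2 := by ring
    rw [h3]
    refine Ideal.add_mem _ (Ideal.add_mem _ ?_ ?_) hb2
    · rw [pow_two]; exact Ideal.mul_mem_mul (hε x) hhm
    · rw [pow_two]; exact Ideal.mul_mem_mul (hε y) hvm
  induction k with
  | zero =>
    intro z _
    refine ⟨C (ε z), ?_⟩
    have h2 : phi h v (C (ε z)) = algebraMap ℂ R (ε z) := by simp [phi]
    rw [h2, zero_add, pow_one]
    exact hε z
  | succ k ih =>
    intro z hz
    rw [pow_succ] at hz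
    refine Submodule.mul_induction_on hz ?_ ?_
    · intro a ha b hb
      obtain ⟨P, hP⟩ := ih a ha
      obtain ⟨Q, hQ⟩ := h1 b hb
      refine ⟨P * Q, ?_⟩
      have h2 : a * b - phi h v (P * Q) =
          (a - phi h v P) * b + phi h v P * (b - phi h v Q) := by
        rw [map_mul]; ring
      rw [h2]
      refine Ideal.add_mem _ ?_ ?_
      · rw [pow_succ]
        exact Ideal.mul_mem_mul hP hb
      · have h3 : phi h v P ∈ RingHom.ker ε ^ k := by
          have := Ideal.sub_mem _ ha (Ideal.pow_le_pow_right (Nat.le_succ k) hP)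
          simpa using this
        rw [show k + 1 + 1 = k + 2 by ring, pow_add]
        exact Ideal.mul_mem_mul h3 hQ
    · rintro a b ⟨P, hP⟩ ⟨Q, hQ⟩
      refine ⟨P + Q, ?_⟩
      have h2 : a + b - phi h v (P + Q) = (a - phi h v P) + (b - phi h v Q) := by
        rw [map_add]; ring
      rw [h2]
      exact Ideal.add_mem _ hP hQ

lemma exists_phi (ε : R →ₐ[ℂ] ℂ) (h v : R) (hh : ε h = 0) (hv : ε v = 0)
    (hm : RingHom.ker ε ≤ Ideal.span {h, v} ⊔ RingHom.ker ε ^ 2) (F : R) (k : ℕ) :
    ∃ P, F - phi h v P ∈ RingHom.ker ε ^ k := by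
  induction k with
  | zero => exact ⟨0, by simp⟩
  | succ k ih =>
    obtain ⟨P, hP⟩ := ih
    obtain ⟨Q, hQ⟩ := exists_phi_step ε h v hh hv hm k _ hP
    refine ⟨P + Q, ?_⟩
    rw [map_add, ← sub_sub]
    exact hQ

end Tau

end Pool.Agent.helper26.SC

namespace Pool.Agent.helper7.SC

open MvPolynomial Pool.Agent.helper26.SC

theorem exists_tau {R : Type} [CommRing R] [IsDomain R] [IsNoetherianRing R] [Algebra ℂ R]
    (ε : R →ₐ[ℂ] ℂ) (h v : R) (hh : ε h = 0) (hv : ε v = 0)
    (hm : RingHom.ker ε ≤ Ideal.span {h, v} ⊔ RingHom.ker ε ^ 2) (hprime : (Ideal.span {h}).IsPrime)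
    (hh0 : h ≠ 0) (hvh : v ∉ Ideal.span {h}) :
    ∃ τ : R →ₐ[ℂ] MvPowerSeries (Fin 2) ℂ, Function.Injective τ ∧ τ v = MvPowerSeries.X 0 ∧
      τ h = MvPowerSeries.X 1 := by
  classical
  have hmp : (RingHom.ker ε).IsPrime := RingHom.ker_isPrime ε.toRingHom
  obtain ⟨s, hs1, hsm⟩ := exists_s (RingHom.ker ε) h v hm
  have hs : s ∉ RingHom.ker ε := by
    intro hs
    have h1 := Ideal.sub_mem _ hs hs1
    rw [sub_sub_cancel] at h1
    exact hmp.ne_top ((Ideal.eq_top_iff_one _).2 h1)
  choose Pk hPk using fun (F : R) (k : ℕ) => exists_phi ε h v hh hv hm F k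
  let τ₀ : R → MvPowerSeries (Fin 2) ℂ := fun F n => coeff n (Pk F (n.degree + 1))
  have key : ∀ (F : R) (k : ℕ) (P : MvPolynomial (Fin 2) ℂ), F - phi h v P ∈ RingHom.ker ε ^ k →
      ∀ n, n.degree < k → MvPowerSeries.coeff n (τ₀ F) = coeff n P := by
    intro F k P hP n hn
    have h1 : F - phi h v P ∈ RingHom.ker ε ^ (n.degree + 1) := Ideal.pow_le_pow_right hn hP
    have h2 := Ideal.sub_mem _ h1 (hPk F (n.degree + 1))
    have h3 : phi h v (Pk F (n.degree + 1) - P) ∈ RingHom.ker ε ^ (n.degree + 1) := by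
      rw [map_sub]
      have h4 : F - phi h v P - (F - phi h v (Pk F (n.degree + 1))) =
        phi h v (Pk F (n.degree + 1)) - phi h v P := by ring
      rwa [h4] at h2
    have h5 := phi_coeff ε h v hh hv s hs hsm hprime hh0 hvh _ _ h3 n (Nat.lt_succ_self _)
    rw [coeff_sub, sub_eq_zero] at h5
    exact h5
  have exact' : ∀ P : MvPolynomial (Fin 2) ℂ, τ₀ (phi h v P) = (P : MvPowerSeries (Fin 2) ℂ) := by
    intro P
    ext n
    rw [key (phi h v P) (n.degree + 1) P (by rw [sub_self]; exact Ideal.zero_mem _) n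
      (Nat.lt_succ_self _), MvPolynomial.coeff_coe]
  let τ : R →ₐ[ℂ] MvPowerSeries (Fin 2) ℂ :=
    { toFun := τ₀
      map_one' := by
        have := exact' 1
        rw [map_one] at this
        rw [this]
        simp
      map_mul' := by
        intro F G
        ext n
        have h1 : F * G - phi h v (Pk F (n.degree + 1) * Pk G (n.degree + 1)) ∈
            RingHom.ker ε ^ (n.degree + 1) := by
          have h2 : F * G - phi h v (Pk F (n.degree + 1) * Pk G (n.degree + 1)) =
              F * (G - phi h v (Pk G (n.degree + 1))) +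
              phi h v (Pk G (n.degree + 1)) * (F - phi h v (Pk F (n.degree + 1))) := by
            rw [map_mul]; ring
          rw [h2]
          exact Ideal.add_mem _ (Ideal.mul_mem_left _ _ (hPk _ _))
            (Ideal.mul_mem_left _ _ (hPk _ _))
        rw [key _ _ _ h1 n (Nat.lt_succ_self _), MvPowerSeries.coeff_mul, coeff_mul]
        refine Finset.sum_congr rfl fun p hp => ?_
        rw [Finset.HasAntidiagonal.mem_antidiagonal] at hp
        have h3 : p.1.degree + p.2.degree = n.degree := by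
          rw [← hp, map_add]
        rw [key F _ _ (hPk F (n.degree + 1)) p.1 (by omega),
          key G _ _ (hPk G (n.degree + 1)) p.2 (by omega)]
      map_zero' := by
        have := exact' 0
        rw [map_zero] at this
        rw [this]
        simp
      map_add' := by
        intro F G
        ext n
        have h1 : F + G - phi h v (Pk F (n.degree + 1) + Pk G (n.degree + 1)) ∈
            RingHom.ker ε ^ (n.degree + 1) := by
          have h2 : F + G - phi h v (Pk F (n.degree + 1) + Pk G (n.degree + 1)) =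
              (F - phi h v (Pk F (n.degree + 1))) + (G - phi h v (Pk G (n.degree + 1))) := by
            rw [map_add]; ring
          rw [h2]
          exact Ideal.add_mem _ (hPk _ _) (hPk _ _)
        rw [key _ _ _ h1 n (Nat.lt_succ_self _), map_add, coeff_add]
        rw [key F _ _ (hPk F (n.degree + 1)) n (by omega),
          key G _ _ (hPk G (n.degree + 1)) n (by omega)]
      commutes' := by
        intro c
        have := exact' (C c)
        have h1 : phi h v (C c) = algebraMap ℂ R c := by simp [phi]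
        rw [h1] at this
        rw [this]
        simp [MvPowerSeries.algebraMap_apply] }
  have hτ : ∀ F, τ F = τ₀ F := fun F => rfl
  refine ⟨τ, ?_, ?_, ?_⟩
  · rw [injective_iff_map_eq_zero]
    intro F hF
    have h1 : ∀ k, F ∈ RingHom.ker ε ^ k := by
      intro k
      have h2 : phi h v (Pk F k) ∈ RingHom.ker ε ^ k := by
        refine phi_mem _ h v hh hv k _ fun n hn => ?_
        rw [← key F k _ (hPk F k) n hn, ← hτ, hF]
        simp
      have := Ideal.add_mem _ (hPk F k) h2
      simpa using this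
    have h3 : F ∈ ⨅ i : ℕ, RingHom.ker ε ^ i := by
      rw [Ideal.mem_iInf]
      exact h1
    rw [Ideal.iInf_pow_eq_bot_of_isDomain _ hmp.ne_top] at h3
    simpa using h3
  · have := exact' (X 0)
    have h1 : phi h v (X 0) = v := by simp [phi]
    rw [h1] at this
    rw [hτ, this, MvPolynomial.coe_X]
  · have := exact' (X 1)
    have h1 : phi h v (X 1) = h := by simp [phi]
    rw [h1] at this
    rw [hτ, this, MvPolynomial.coe_X]

theorem not_mem_h {R : Type} [CommRing R] [IsDomain R] [Algebra ℂ R] {n : ℕ} {x : Fin n → R}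
    {N : ℕ} (hN : 0 < N) {h v : R} {ε : R →ₐ[ℂ] ℂ} (S : Surf x N h v ε) :
    v ∉ Ideal.span {h} := by
  intro hv
  -- `R` is noetherian
  have hsurj : Function.Surjective (aeval x : MvPolynomial (Fin n) ℂ →ₐ[ℂ] R) := by
    rw [← AlgHom.range_eq_top, ← Algebra.adjoin_range_eq_range_aeval, S.gen]
  have hnoeth : IsNoetherianRing R := isNoetherianRing_of_surjective _ R
    (aeval x : MvPolynomial (Fin n) ℂ →ₐ[ℂ] R).toRingHom hsurj
  have hmp : (RingHom.ker ε).IsPrime := RingHom.ker_isPrime ε.toRingHom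
  have hhm : h ∈ RingHom.ker ε := S.eh
  -- the maximal ideal is `(h)`
  have hm : RingHom.ker ε ≤ Ideal.span {h} ⊔ RingHom.ker ε ^ 2 := by
    refine S.smooth.trans (sup_le_sup_right ?_ _)
    rw [Ideal.span_le]
    rintro z (rfl | rfl)
    · exact Ideal.subset_span rfl
    · exact hv
  have hfg : (RingHom.ker ε).FG := IsNoetherian.noetherian _
  obtain ⟨r, hr, hr'⟩ := Submodule.exists_sub_one_mem_and_smul_le_of_fg_of_le_sup
    (I := RingHom.ker ε) (N := Ideal.span {h}) (N' := RingHom.ker ε) (P := RingHom.ker ε) hfg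
    le_rfl (by
      rw [smul_eq_mul, ← pow_two]
      exact hm)
  have hker : RingHom.ker ε ≤ Ideal.span {h} := by
    intro z hz
    have h1 : r * z ∈ Ideal.span {h} := hr' (Submodule.smul_mem_pointwise_smul _ _ _ hz)
    rcases S.prime.mem_or_mem h1 with h2 | h2
    · exfalso
      have h3 : r ∈ RingHom.ker ε := by
        have : Ideal.span {h} ≤ RingHom.ker ε := by
          rw [Ideal.span_le]
          rintro z rfl
          exact hhm
        exact this h2
      have h4 := Ideal.sub_mem _ h3 hr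
      rw [sub_sub_cancel] at h4
      exact hmp.ne_top ((Ideal.eq_top_iff_one _).2 h4)
    · exact h2
  obtain ⟨s0, hs0⟩ := S.sat
  have hfin : ∀ s, FiniteDimensional ℂ (W x s) := by
    intro s
    unfold W
    infer_instance
  -- constants
  have hconst : ∀ (s : ℕ) (c : ℂ), algebraMap ℂ R c ∈ W x s := by
    intro s c
    refine ⟨C c, ?_, by simp⟩
    rw [SetLike.mem_coe, mem_restrictTotalDegree, totalDegree_C]
    exact Nat.zero_le _
  have hstep : ∀ s, s0 ≤ s → Module.finrank ℂ (W x (s + 1)) ≤ Module.finrank ℂ (W x s) + 1 := by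
    intro s hs
    have h1 : W x (s + 1) ≤ (W x s).map (LinearMap.mulLeft ℂ h) ⊔ Submodule.span ℂ {1} := by
      intro F hF
      have h2 : F - algebraMap ℂ R (ε F) ∈ W x (s + 1) := Submodule.sub_mem _ hF (hconst _ _)
      have h3 : F - algebraMap ℂ R (ε F) ∈ RingHom.ker ε := by
        rw [RingHom.mem_ker, map_sub, AlgHom.commutes]
        simp
      obtain ⟨G, hG⟩ := Ideal.mem_span_singleton.1 (hker h3)
      rw [hG] at h2
      have h4 := hs0 s hs G h2
      rw [Submodule.mem_sup]
      refine ⟨h * G, ⟨G, h4, rfl⟩, algebraMap ℂ R (ε F), ?_, ?_⟩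
      · rw [Submodule.mem_span_singleton]
        exact ⟨ε F, by rw [Algebra.algebraMap_eq_smul_one]⟩
      · rw [← hG]; ring
    have h5 := hfin s
    have h6 : FiniteDimensional ℂ ((W x s).map (LinearMap.mulLeft ℂ h)) := inferInstance
    have h7 := Submodule.finrank_mono h1
    have h8 := Submodule.finrank_add_le_finrank_add_finrank
      ((W x s).map (LinearMap.mulLeft ℂ h)) (Submodule.span ℂ {(1 : R)})
    have h9 : Module.finrank ℂ ((W x s).map (LinearMap.mulLeft ℂ h)) ≤
        Module.finrank ℂ (W x s) := Submodule.finrank_map_le _ _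
    have h10 : Module.finrank ℂ (Submodule.span ℂ {(1 : R)}) ≤ 1 := by
      have := finrank_span_le_card (R := ℂ) ({(1 : R)} : Set R)
      simpa using this
    omega
  have hlin : ∀ t, Module.finrank ℂ (W x (s0 + t)) ≤ Module.finrank ℂ (W x s0) + t := by
    intro t
    induction t with
    | zero => simp
    | succ t ih =>
      have := hstep (s0 + t) (by omega)
      rw [← add_assoc]
      omega
  obtain ⟨c, hc⟩ := S.growth
  set D0 := Module.finrank ℂ (W x s0)
  -- choose `s` large
  set t : ℕ := c.natAbs + 2 * D0 + s0 + 10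
  have h1 := hc (s0 + t)
  have h2 := hlin t
  have h3 := (abs_le.1 h1).1
  have h4 : c ≤ c.natAbs := Int.le_natAbs
  push_cast at h1 h3
  have h5 : (Module.finrank ℂ (W x (s0 + t)) : ℤ) ≤ D0 + t := by exact_mod_cast h2
  have h6 : ((s0 : ℤ) + t) ^ 2 ≤ N * ((s0 : ℤ) + t) ^ 2 := by
    have : (1 : ℤ) ≤ N := by exact_mod_cast hN
    nlinarith [sq_nonneg ((s0 : ℤ) + t)]
  have h7 : (t : ℤ) = c.natAbs + 2 * D0 + s0 + 10 := by
    simp only [t]
    push_cast
    ring
  have h8 : ((s0 : ℤ) + t) ^ 2 ≤ c.natAbs * (s0 + t + 1) + 2 * (D0 + t) := by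
    have : c * ((s0 : ℤ) + t + 1) ≤ c.natAbs * ((s0 : ℤ) + t + 1) := by
      apply mul_le_mul_of_nonneg_right h4
      positivity
    linarith
  have h9 : (0 : ℤ) ≤ c.natAbs := by positivity
  have h10 : (0 : ℤ) ≤ D0 := by positivity
  have h11 : (0 : ℤ) ≤ s0 := by positivity
  generalize (c.natAbs : ℤ) = cc at *
  generalize (D0 : ℤ) = dd at *
  generalize (s0 : ℤ) = ss at *
  generalize (t : ℤ) = tt at *
  subst h7
  nlinarith [mul_nonneg h9 h10, mul_nonneg h9 h11, mul_nonneg h10 h11]

end Pool.Agent.helper7.SC
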